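import Mathlib
import Pool.Graph.R_seed8.BAPp.Stmt
import Pool.Graph.R_seed8.Results.MP_6f6997_an.InnerNotOuter
import Pool.Agent.Helper37.BP.Stmt
import Pool.Agent.Helper37.BP.Bridge
import Pool.Agent.Helper37.BP.Main1
import Pool.Agent.Helper37.BP.Main2

open scoped ENNReal NNReal

set_option maxSynthPendingDepth 3

open Pool.Agent.Helper37.BP.Stmt (gNorm)
open Pool.Agent.BAPp.Stmt (iNorm FiniteRank)

/-- For every `1 < p ≤ ∞` with `p ≠ 2` there is a (real) Banach space `X` which satisfies the inner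
inequality for `(g_p, I_p, lam)` with some `lam ≥ 1` but fails the outer inequality for every
constant, i.e. `X` fails the `lam`-BAP of order `p` for every `lam`. -/
theorem Pool.Agent.Results.MP_6f6997_an.InnerNotOuterAllP.result (p : ℝ≥0∞) (hp1 : 1 < p)
    (hp2 : p ≠ 2) :
    haveI : Fact (1 ≤ p) := ⟨hp1.le⟩
    ∃ (X : Type) (_ : NormedAddCommGroup X) (_ : NormedSpace ℝ X) (_ : CompleteSpace X),
      (∃ lam : ℝ≥0, 1 ≤ lam ∧ ∀ S : X →L[ℝ] X, FiniteRank S →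
        gNorm p S ≤ lam * iNorm p S) ∧
      ∀ lam : ℝ≥0, ∃ (Y : Type) (_ : NormedAddCommGroup Y) (_ : NormedSpace ℝ Y)
        (_ : CompleteSpace Y) (T : Y →L[ℝ] X), FiniteRank T ∧
        lam * iNorm p T < gNorm p T := by
  haveI : Fact (1 ≤ p) := ⟨hp1.le⟩
  by_cases htop : p = ∞
  · subst htop
    obtain ⟨X, i1, i2, i3, ⟨lam, hlam, h1⟩, h2⟩ := Pool.Agent.Helper37.BP.main_top
    refine ⟨X, i1, i2, i3, ⟨lam, hlam, fun S hS => ?_⟩, fun lam => ?_⟩
    · rw [Pool.Agent.Helper37.BP.Bridge.gNorm_top, Pool.Agent.Helper37.BP.Bridge.iNorm_top]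
      exact h1 S hS
    · obtain ⟨Y, j1, j2, j3, T, hT, h⟩ := h2 lam
      refine ⟨Y, j1, j2, j3, T, hT, ?_⟩
      rw [Pool.Agent.Helper37.BP.Bridge.gNorm_top, Pool.Agent.Helper37.BP.Bridge.iNorm_top]
      exact h
  · obtain ⟨r, hr⟩ : ∃ r : ℝ, r = p.toReal := ⟨_, rfl⟩
    have hpr : p = ENNReal.ofReal r := by rw [hr, ENNReal.ofReal_toReal htop]
    have hr1 : 1 < r := by
      rw [hpr] at hp1
      exact ENNReal.one_lt_ofReal.1 hp1
    have hr2 : r ≠ 2 := by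
      intro h
      apply hp2
      rw [hpr, h]
      norm_num
    clear hr
    subst hpr
    have key : ∃ (X : Type) (_ : NormedAddCommGroup X) (_ : NormedSpace ℝ X) (_ : CompleteSpace X),
      (∃ lam : ℝ≥0, 1 ≤ lam ∧ ∀ S : X →L[ℝ] X, FiniteRank S →
        Pool.Agent.BAPp.gNorm r S ≤ lam * iNorm (ENNReal.ofReal r) S) ∧
      ∀ lam : ℝ≥0, ∃ (Y : Type) (_ : NormedAddCommGroup Y) (_ : NormedSpace ℝ Y)
        (_ : CompleteSpace Y) (T : Y →L[ℝ] X), FiniteRank T ∧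
        lam * iNorm (ENNReal.ofReal r) T < Pool.Agent.BAPp.gNorm r T := by
      rcases lt_or_gt_of_ne hr2 with h | h
      · exact Pool.Agent.Results.MP_6f6997_an.InnerNotOuter.result r hr1 h
      · obtain ⟨X, i1, i2, i3, ⟨lam, hlam, h1⟩, h2⟩ := Pool.Agent.Helper37.BP.main_fin r h
        refine ⟨X, i1, i2, i3, ⟨lam, hlam, fun S hS => ?_⟩, fun lam => ?_⟩
        · rw [Pool.Agent.BAPp.Bridge.iNorm_eq]
          exact h1 S hS
        · obtain ⟨Y, j1, j2, j3, T, hT, h⟩ := h2 lam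
          refine ⟨Y, j1, j2, j3, T, hT, ?_⟩
          rw [Pool.Agent.BAPp.Bridge.iNorm_eq]
          exact h
    obtain ⟨X, i1, i2, i3, ⟨lam, hlam, h1⟩, h2⟩ := key
    refine ⟨X, i1, i2, i3, ⟨lam, hlam, fun S hS => ?_⟩, fun lam => ?_⟩
    · rw [Pool.Agent.Helper37.BP.Bridge.gNorm_ofReal hr1]
      exact h1 S hS
    · obtain ⟨Y, j1, j2, j3, T, hT, h⟩ := h2 lam
      refine ⟨Y, j1, j2, j3, T, hT, ?_⟩
      rw [Pool.Agent.Helper37.BP.Bridge.gNorm_ofReal hr1]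
      exact h
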